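import Pool.Agent.Work.MP_d1e9a6_pr_hedge.Clique

/-!
# MP_d1e9a6_pr: the bouquet-of-spheres conjecture, with the lower end of the range of logarithmic order

The random graph is the binomial random graph of Mathlib (`SimpleGraph.binomialRandom`), the
complex is its clique complex, realised in `ℝ^n`, and the bouquet is the quotient of a disjoint
union of spheres by the identification of all base points.
-/

set_option autoImplicit false

open Filter Topology MeasureTheory SimpleGraph
open Pool.Agent.Work.MP_d1e9a6_pr Pool.Agent.Work.MP_d1e9a6_pr.Hedge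

namespace Pool.Agent.Results.MP_d1e9a6_pr.BouquetOfSpheres

/-- For every `k ≥ 3` there is a constant `C = C(k)` such that for every `ε > 0` and every
`p : ℕ → [0,1]` with `(C log n / n)^(1/k) ≤ p(n) ≤ n^(-ε) / n^(1/(k+1))` for all large `n`, the
probability that the clique complex of `G(n, p(n))` is homotopy equivalent to a bouquet of
`k`-spheres tends to `1`. -/
theorem result (k : ℕ) (hk : 3 ≤ k) :
    ∃ C : ℝ, 0 < C ∧ ∀ (ε : ℝ) (p : ℕ → unitInterval), 0 < ε →
      (∀ᶠ n : ℕ in atTop,
        (C * Real.log n / n) ^ (1 / (k : ℝ)) ≤ (p n : ℝ) ∧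
        (p n : ℝ) ≤ (n : ℝ) ^ (-ε) / (n : ℝ) ^ (1 / ((k : ℝ) + 1))) →
      Tendsto
        (fun n : ℕ => (binomialRandom (Fin n) (p n))
          {G : SimpleGraph (Fin n) | IsBouquet (realization (cliqueComplex G)) k})
        atTop (𝓝 1) := by
  obtain ⟨C, hC, h⟩ := assemble_log hk
  refine ⟨C, hC, ?_⟩
  intro ε p hε hp
  have h1 := h ε hε (fun n => (p n : ℝ)) hp
  have h2 : Tendsto (fun n : ℕ => ENNReal.ofReal (PrG n (p n) (FrozenEvent k n))) atTop (𝓝 1) := by
    have := (ENNReal.continuous_ofReal.tendsto (1 : ℝ)).comp h1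
    rwa [ENNReal.ofReal_one] at this
  refine tendsto_of_tendsto_of_tendsto_of_le_of_le h2 tendsto_const_nhds ?_ ?_
  · intro n
    change ENNReal.ofReal (PrG n (p n) (FrozenEvent k n)) ≤ _
    rw [← binomial_apply]
    exact measure_mono fun G hG => isBouquet_of_frozen hG
  · intro n
    exact prob_le_one

end Pool.Agent.Results.MP_d1e9a6_pr.BouquetOfSpheres
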